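import Pool.Agent.N856.JL.Cmb

/-!
# AA: multipliers for all the squarefree integers
-/

set_option autoImplicit false
set_option linter.all false

open Finset

namespace Pool.Agent.N972.AA

open Pool.Agent.N856.JL (sfp sfp_spec sfp_pos)

/-- the residues of the squarefree part -/
def Rs (m : ℕ) : Prop := m % 8 = 3 ∧ m % 3 = 0 ∧ (m % 5 = 0 ∨ m % 5 = 2 ∨ m % 5 = 3) ∧
  (m % 7 = 0 ∨ m % 7 = 3 ∨ m % 7 = 5 ∨ m % 7 = 6)

/-- the first part of the multiplier -/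
def bA (a : ℕ) : ℕ := if a % 3 = 0 then 1 else 3

/-- the residue class of the second part -/
def rA (a : ℕ) : ℕ := (105 * ((3 * bA a * a) % 8) + 280 +
  336 * (if (bA a * a) % 5 = 1 ∨ (bA a * a) % 5 = 4 then 2 else 1) +
  120 * (if (bA a * a) % 7 = 1 ∨ (bA a * a) % 7 = 2 ∨ (bA a * a) % 7 = 4 then 3 else 1)) % 840

theorem choice0 : ∀ a ∈ range 840, a % 2 = 1 →
    Nat.Coprime (rA a) 840 ∧ (bA a * rA a * a) % 8 = 3 ∧
    ((bA a * rA a * a) % 5 = 0 ∨ (bA a * rA a * a) % 5 = 2 ∨ (bA a * rA a * a) % 5 = 3) ∧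
    ((bA a * rA a * a) % 7 = 0 ∨ (bA a * rA a * a) % 7 = 3 ∨ (bA a * rA a * a) % 7 = 5 ∨
      (bA a * rA a * a) % 7 = 6) := by
  decide +kernel

/-- the choice of the residue class of the multiplier -/
theorem choice : ∀ a ∈ range 840, a % 2 = 1 → ∃ β ∈ ({1, 3} : Finset ℕ), ∃ r ∈ range 840,
    Nat.Coprime r 840 ∧ (β = 3 → a % 3 ≠ 0) ∧ (β = 1 → a % 3 = 0) ∧ (β * r * a) % 8 = 3 ∧
    ((β * r * a) % 5 = 0 ∨ (β * r * a) % 5 = 2 ∨ (β * r * a) % 5 = 3) ∧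
    ((β * r * a) % 7 = 0 ∨ (β * r * a) % 7 = 3 ∨ (β * r * a) % 7 = 5 ∨ (β * r * a) % 7 = 6) := by
  intro a ha h2
  obtain ⟨h1, h8, h5, h7⟩ := choice0 a ha h2
  refine ⟨bA a, ?_, rA a, mem_range.2 (Nat.mod_lt _ (by norm_num)), h1, ?_, ?_, h8, h5, h7⟩
  · unfold bA
    split_ifs <;> simp
  · intro h h'
    unfold bA at h
    rw [if_pos h'] at h
    omega
  · intro h
    by_contra h'
    unfold bA at h
    rw [if_neg h'] at h
    omega

theorem primes_in {r : ℕ} (hr : Nat.Coprime r 840) (k : ℕ) :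
    ∃ P : Finset ℕ, P.card = k ∧ ∀ p ∈ P, p.Prime ∧ p % 840 = r % 840 := by
  have hu : IsUnit ((r : ℕ) : ZMod 840) := (ZMod.isUnit_iff_coprime r 840).2 hr
  have hinf := Nat.infinite_setOf_prime_and_eq_mod hu
  obtain ⟨P, hP, hk⟩ := hinf.exists_subset_card_eq k
  refine ⟨P, hk, fun p hp => ?_⟩
  obtain ⟨h1, h2⟩ := hP (Finset.mem_coe.2 hp)
  exact ⟨h1, (ZMod.natCast_eq_natCast_iff' _ _ _).1 h2⟩

lemma not_dvd {N m t p : ℕ} (h9 : ¬ p ^ 2 ∣ N) (h : m * t ^ 2 = N) : t % p ≠ 0 := by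
  intro h0
  obtain ⟨k, rfl⟩ := Nat.dvd_of_mod_eq_zero h0
  refine h9 ?_
  rw [← h]
  exact ⟨m * k ^ 2, by ring⟩

theorem rs_sfp {N : ℕ} (h0 : 0 < N) (h8 : N % 8 = 3) (h3 : N % 3 = 0) (h9 : ¬ 3 ^ 2 ∣ N)
    (h25 : ¬ 5 ^ 2 ∣ N) (h49 : ¬ 7 ^ 2 ∣ N) (h5 : N % 5 = 0 ∨ N % 5 = 2 ∨ N % 5 = 3)
    (h7 : N % 7 = 0 ∨ N % 7 = 3 ∨ N % 7 = 5 ∨ N % 7 = 6) : Rs (sfp N) := by
  obtain ⟨t, ht0, ht, -, -⟩ := sfp_spec h0
  set m := sfp N with hm
  have t2 : t % 2 ≠ 0 := not_dvd (p := 2) (N := N) (by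
    intro h
    have : 4 ∣ N := h
    omega) ht
  have t3 := not_dvd h9 ht
  have t5 := not_dvd h25 ht
  have t7 := not_dvd h49 ht
  have e : ∀ k, (m % k * ((t % k) ^ 2 % k)) % k = N % k := by
    intro k
    rw [← Nat.pow_mod, ← Nat.mul_mod, ht]
  refine ⟨?_, ?_, ?_, ?_⟩
  · have h := e 8
    rw [h8] at h
    have d : ∀ a < 8, ∀ b < 8, b % 2 ≠ 0 → (a * (b ^ 2 % 8)) % 8 = 3 → a = 3 := by decide
    exact d _ (Nat.mod_lt _ (by norm_num)) _ (Nat.mod_lt _ (by norm_num)) (by omega) h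
  · have h := e 3
    rw [h3] at h
    have d : ∀ a < 3, ∀ b < 3, b ≠ 0 → (a * (b ^ 2 % 3)) % 3 = 0 → a = 0 := by decide
    exact d _ (Nat.mod_lt _ (by norm_num)) _ (Nat.mod_lt _ (by norm_num)) t3 h
  · have h := e 5
    have d : ∀ a : Fin 5, ∀ b : Fin 5, ∀ c : Fin 5, b.1 ≠ 0 → (c.1 = 0 ∨ c.1 = 2 ∨ c.1 = 3) →
      (a.1 * (b.1 ^ 2 % 5)) % 5 = c.1 → (a.1 = 0 ∨ a.1 = 2 ∨ a.1 = 3) := by decide
    exact d ⟨_, Nat.mod_lt m (by norm_num)⟩ ⟨_, Nat.mod_lt t (by norm_num)⟩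
      ⟨_, Nat.mod_lt N (by norm_num)⟩ t5 h5 h
  · have h := e 7
    have d : ∀ a : Fin 7, ∀ b : Fin 7, ∀ c : Fin 7, b.1 ≠ 0 →
      (c.1 = 0 ∨ c.1 = 3 ∨ c.1 = 5 ∨ c.1 = 6) →
      (a.1 * (b.1 ^ 2 % 7)) % 7 = c.1 → (a.1 = 0 ∨ a.1 = 3 ∨ a.1 = 5 ∨ a.1 = 6) := by decide
    exact d ⟨_, Nat.mod_lt m (by norm_num)⟩ ⟨_, Nat.mod_lt t (by norm_num)⟩
      ⟨_, Nat.mod_lt N (by norm_num)⟩ t7 h7 h

/-- `p ^ 2` does not divide `c n` -/
theorem sq_not {c n p : ℕ} (hp : p.Prime) (hn : Squarefree n) (hc : ¬ p ∣ c) : ¬ p ^ 2 ∣ c * n := by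
  intro h
  have h2 : (p ^ 2).Coprime c := Nat.Coprime.pow_left 2 ((Nat.Prime.coprime_iff_not_dvd hp).2 hc)
  have h3 := h2.dvd_of_dvd_mul_left h
  have h4 := hn p (by rwa [pow_two] at h3)
  exact absurd (Nat.isUnit_iff.1 h4) hp.one_lt.ne'

/-- **the multipliers of a residue class** -/
theorem mult {a : ℕ} (ha : a < 840) (h2 : a % 2 = 1) (k : ℕ) : ∃ T : Finset ℕ, T.card = k ∧
    (∀ c ∈ T, Squarefree c ∧ c % 2 = 1) ∧
    ∀ n, Squarefree n → n % 840 = a → ∀ c ∈ T, Rs (sfp (c * n)) := by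
  obtain ⟨β, hβ, r, hr, hcop, h3, h3', h8, h5, h7⟩ := choice a (mem_range.2 ha) h2
  obtain ⟨P, hPk, hP⟩ := primes_in hcop k
  have hβ13 : β = 1 ∨ β = 3 := by
    simpa using hβ
  have hβ0 : β ≠ 0 := by omega
  have hr840 : r % 840 = r := Nat.mod_eq_of_lt (mem_range.1 hr)
  have hp : ∀ p ∈ P, p.Prime ∧ p % 840 = r ∧ p % 2 = 1 ∧ p % 3 ≠ 0 ∧ p % 5 ≠ 0 ∧ p % 7 ≠ 0 := by
    intro p hp
    obtain ⟨h1, h4⟩ := hP p hp
    rw [hr840] at h4
    have hc : ∀ q, q ∣ 840 → q ≠ 1 → p % q ≠ 0 := by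
      intro q hq hq1 h
      have hqr : q ∣ r := by
        have : p % 840 % q = r % q := by rw [h4]
        rw [Nat.mod_mod_of_dvd _ hq, h] at this
        exact Nat.dvd_of_mod_eq_zero this.symm
      have : q ∣ Nat.gcd r 840 := Nat.dvd_gcd hqr hq
      rw [hcop] at this
      exact hq1 (Nat.dvd_one.1 this)
    have h22 := hc 2 (by norm_num) (by norm_num)
    exact ⟨h1, h4, by omega, hc 3 (by norm_num) (by norm_num), hc 5 (by norm_num) (by norm_num),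
      hc 7 (by norm_num) (by norm_num)⟩
  refine ⟨P.image fun p => β * p, ?_, ?_, ?_⟩
  · rw [card_image_of_injective _ fun x y h => Nat.eq_of_mul_eq_mul_left (Nat.pos_of_ne_zero hβ0) h,
      hPk]
  · intro c hc
    obtain ⟨p, hpP, rfl⟩ := mem_image.1 hc
    obtain ⟨h1, h4, p2, p3, p5, p7⟩ := hp p hpP
    rcases hβ13 with rfl | rfl
    · rw [one_mul]
      exact ⟨h1.squarefree, p2⟩
    · refine ⟨?_, by omega⟩
      rw [Nat.squarefree_mul]
      · exact ⟨Nat.prime_three.squarefree, h1.squarefree⟩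
      · exact (Nat.Prime.coprime_iff_not_dvd Nat.prime_three).2 fun h =>
          p3 (Nat.mod_eq_zero_of_dvd h)
  · intro n hn hna c hc
    obtain ⟨p, hpP, rfl⟩ := mem_image.1 hc
    obtain ⟨h1, h4, p2, p3, p5, p7⟩ := hp p hpP
    have hmod : ∀ q, q ∣ 840 → (β * p * n) % q = (β * r * a) % q := by
      intro q hq
      have e1 : p % q = r % q := by
        rw [← h4, Nat.mod_mod_of_dvd _ hq]
      have e2 : n % q = a % q := by
        rw [← hna, Nat.mod_mod_of_dvd _ hq]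
      rw [Nat.mul_mod, Nat.mul_mod β p, e1, e2, ← Nat.mul_mod β r, ← Nat.mul_mod]
    have hn0 : 0 < n := Nat.pos_of_ne_zero hn.ne_zero
    have hpos : 0 < β * p * n :=
      Nat.mul_pos (Nat.mul_pos (Nat.pos_of_ne_zero hβ0) h1.pos) hn0
    have na3 : n % 3 = a % 3 := by omega
    refine rs_sfp hpos ?_ ?_ ?_ ?_ ?_ ?_ ?_
    · rw [hmod 8 (by norm_num)]
      exact h8
    · rcases hβ13 with rfl | rfl
      · have := h3' rfl
        have h6 : 3 ∣ n := Nat.dvd_of_mod_eq_zero (by omega)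
        exact Nat.mod_eq_zero_of_dvd (Dvd.dvd.mul_left h6 _)
      · exact Nat.mod_eq_zero_of_dvd (Dvd.dvd.mul_right (Dvd.intro _ rfl) _)
    · rcases hβ13 with rfl | rfl
      · refine sq_not Nat.prime_three hn ?_
        rw [one_mul]
        exact fun h => p3 (Nat.mod_eq_zero_of_dvd h)
      · intro h
        have h6 := h3 rfl
        have h7' : 3 * 3 ∣ 3 * (p * n) := by
          rw [← mul_assoc]
          exact h
        have h8' := Nat.dvd_of_mul_dvd_mul_left (by norm_num : 0 < 3) h7'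
        rcases (Nat.Prime.dvd_mul Nat.prime_three).1 h8' with h | h
        · exact p3 (Nat.mod_eq_zero_of_dvd h)
        · have := Nat.mod_eq_zero_of_dvd h
          omega
    · refine sq_not Nat.prime_five hn ?_
      intro h
      rcases (Nat.Prime.dvd_mul Nat.prime_five).1 h with h | h
      · have := Nat.le_of_dvd (Nat.pos_of_ne_zero hβ0) h
        omega
      · exact p5 (Nat.mod_eq_zero_of_dvd h)
    · refine sq_not (by norm_num) hn ?_
      intro h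
      rcases (Nat.Prime.dvd_mul (by norm_num : Nat.Prime 7)).1 h with h | h
      · have := Nat.le_of_dvd (Nat.pos_of_ne_zero hβ0) h
        omega
      · exact p7 (Nat.mod_eq_zero_of_dvd h)
    · rw [hmod 5 (by norm_num)]
      exact h5
    · rw [hmod 7 (by norm_num)]
      exact h7

/-- a squarefree number in each odd class -/
theorem rep : ∀ a ∈ range 840, a % 2 = 1 → ∃ n : ℕ, Squarefree n ∧ n % 840 = a := by
  have key : ∀ a ∈ range 840, a % 2 = 1 → (Nat.gcd a 840 ∣ 105 ∧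
      Nat.Coprime (a / Nat.gcd a 840) (840 / Nat.gcd a 840)) := by
    decide +kernel
  intro a ha h2
  obtain ⟨h1, h3⟩ := key a ha h2
  set g := Nat.gcd a 840 with hg
  have hg0 : 0 < g := Nat.gcd_pos_of_pos_right a (by norm_num)
  have hgM : g ∣ 840 := Nat.gcd_dvd_right _ _
  have hga : g ∣ a := Nat.gcd_dvd_left _ _
  have h840 : 0 < 840 / g := Nat.div_pos (Nat.le_of_dvd (by norm_num) hgM) hg0
  haveI : NeZero (840 / g) := ⟨h840.ne'⟩
  have hu : IsUnit ((a / g : ℕ) : ZMod (840 / g)) := (ZMod.isUnit_iff_coprime _ _).2 h3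
  obtain ⟨p, hp1, hp2, hp3⟩ := Nat.forall_exists_prime_gt_and_eq_mod hu 840
  refine ⟨g * p, ?_, ?_⟩
  · rw [Nat.squarefree_mul]
    · refine ⟨?_, hp2.squarefree⟩
      have h105 : Squarefree 105 := by
        have h : (105 : ℕ) = 3 * (5 * 7) := by norm_num
        rw [h, Nat.squarefree_mul (by norm_num), Nat.squarefree_mul (by norm_num)]
        exact ⟨Nat.prime_three.squarefree, Nat.prime_five.squarefree,
          (by norm_num : Nat.Prime 7).squarefree⟩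
      exact h105.squarefree_of_dvd h1
    · refine Nat.Coprime.symm ((Nat.Prime.coprime_iff_not_dvd hp2).2 fun h => ?_)
      have := Nat.le_of_dvd hg0 h
      have h5 := Nat.le_of_dvd (by norm_num : 0 < 840) hgM
      omega
  · have h4 : p % (840 / g) = (a / g) % (840 / g) := (ZMod.natCast_eq_natCast_iff' _ _ _).1 hp3
    have h5 : g * (840 / g) = 840 := Nat.mul_div_cancel' hgM
    have h6 : g * (a / g) = a := Nat.mul_div_cancel' hga
    have h7 : (g * p) % (g * (840 / g)) = (g * (a / g)) % (g * (840 / g)) := by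
      rw [Nat.mul_mod_mul_left, Nat.mul_mod_mul_left, h4]
    rw [h5, h6] at h7
    rw [h7, Nat.mod_eq_of_lt (mem_range.1 ha)]

end Pool.Agent.N972.AA
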